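import Mathlib
import Pool.Agent.Results.MP_e0ec03_al.LowerBound

set_option autoImplicit false

/-!
# Growth of Baumslag–Solitar groups: the lower bound from normal forms
-/

namespace Pool.Agent.Y83.BG

open Filter Topology
open Pool.Agent.Results.MP_e0ec03_al.LowerBound

/-- Admissible blocks: the exponents before `t` represent the residues modulo `q`, those before
`t⁻¹` the residues modulo `p`. -/
def Adm (p q : ℕ) (b : ℤ × Bool) : Prop :=
  (b.2 = true → -(q : ℤ) < 2 * b.1 ∧ 2 * b.1 ≤ q) ∧ (b.2 = false → -(p : ℤ) < 2 * b.1 ∧ 2 * b.1 ≤ p)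

def GoodPQ (p q : ℕ) (l : List (ℤ × Bool)) : Prop :=
  (∀ b ∈ l, Adm p q b) ∧ l.IsChain (fun b b' => b.2 ≠ b'.2 → b'.1 ≠ 0)

theorem GoodPQ.tail {p q : ℕ} {b : ℤ × Bool} {l : List (ℤ × Bool)} (h : GoodPQ p q (b :: l)) :
    GoodPQ p q l := by
  refine ⟨fun c hc => h.1 c (List.mem_cons_of_mem _ hc), ?_⟩
  exact (List.isChain_cons.1 h.2).2

theorem tl_chain {p q : ℕ} (hp : 1 < p) (hq : p < q) (l : List (ℤ × Bool)) (hl : GoodPQ p q l) :
    (bprod_inj_tl l).IsChain (fun a b => a.2 ∈ HNNExtension.toSubgroup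
      (powMonoidHom p : bprod_inj_GZ →* bprod_inj_GZ).range
      (powMonoidHom q : bprod_inj_GZ →* bprod_inj_GZ).range a.1 → a.1 = b.1) := by
  induction l with
  | nil => exact List.isChain_nil
  | cons b l ih =>
    cases l with
    | nil => exact List.isChain_singleton _
    | cons c m =>
      have ih' := ih hl.tail
      show List.IsChain _ ((bprod_inj_ub b.2, Multiplicative.ofAdd c.1) ::
        (bprod_inj_ub c.2, Multiplicative.ofAdd (bprod_inj_hd m)) :: bprod_inj_tl m)
      rw [List.isChain_cons_cons]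
      refine ⟨?_, ih'⟩
      intro hm
      by_contra hne
      have hbc : b.2 ≠ c.2 := fun h => hne (by simp only [h])
      have h0 : c.1 ≠ 0 := by
        have := hl.2
        rw [List.isChain_cons_cons] at this
        exact this.1 hbc
      have h1 := hl.1 c (by simp)
      obtain ⟨b1, b2⟩ := b
      obtain ⟨c1, c2⟩ := c
      cases b2
      · have hc2 : c2 = true := by
          cases c2
          · exact absurd rfl hbc
          · rfl
        have hm' : Multiplicative.ofAdd c1 ∈ (powMonoidHom q : bprod_inj_GZ →* bprod_inj_GZ).range :=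
          hm
        rw [bprod_inj_gz_mem] at hm'
        have h2 := Int.le_of_dvd (by simpa using h0 : (0:ℤ) < |c1|) ((dvd_abs _ _).2 hm')
        have h3 := h1.1 hc2
        simp only at h0 h3
        rcases abs_cases c1 with ⟨h7, _⟩ | ⟨h7, _⟩ <;> rw [h7] at h2 <;> omega
      · have hc2 : c2 = false := by
          cases c2
          · rfl
          · exact absurd rfl hbc
        have hm' : Multiplicative.ofAdd c1 ∈ (powMonoidHom p : bprod_inj_GZ →* bprod_inj_GZ).range :=
          hm
        rw [bprod_inj_gz_mem] at hm'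
        have h2 := Int.le_of_dvd (by simpa using h0 : (0:ℤ) < |c1|) ((dvd_abs _ _).2 hm')
        have h3 := h1.2 hc2
        simp only at h0 h3
        rcases abs_cases c1 with ⟨h7, _⟩ | ⟨h7, _⟩ <;> rw [h7] at h2 <;> omega

theorem bprod_inj_pq {p q : ℕ} (hp : 1 < p) (hq : p < q) (l l' : List (ℤ × Bool))
    (hl : GoodPQ p q l) (hl' : GoodPQ p q l') (h : bprod p q l = bprod p q l') : l = l' := by
  have hp0 : p ≠ 0 := by omega
  have hq0 : q ≠ 0 := by omega
  induction l generalizing l' with
  | nil =>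
    have key := HNNExtension.ReducedWord.map_fst_eq_and_of_prod_eq (bprod_inj_gzφ hp0 hq0)
      (w₁ := ⟨Multiplicative.ofAdd (bprod_inj_hd []), bprod_inj_tl [], tl_chain hp hq [] hl⟩)
      (w₂ := ⟨Multiplicative.ofAdd (bprod_inj_hd l'), bprod_inj_tl l', tl_chain hp hq l' hl'⟩)
      (by
        have h1 := congrArg (bprod_inj_psi hp0 hq0) h
        rw [bprod_inj_psi_bprod, bprod_inj_psi_bprod] at h1
        exact h1)
    have h1 := key.1
    simp only [bprod_inj_tl_map, List.map_nil] at h1
    exact (List.map_eq_nil_iff.1 h1.symm).symm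
  | cons b m ih =>
    have key := HNNExtension.ReducedWord.map_fst_eq_and_of_prod_eq (bprod_inj_gzφ hp0 hq0)
      (w₁ := ⟨Multiplicative.ofAdd (bprod_inj_hd (b :: m)), bprod_inj_tl (b :: m),
        tl_chain hp hq (b :: m) hl⟩)
      (w₂ := ⟨Multiplicative.ofAdd (bprod_inj_hd l'), bprod_inj_tl l', tl_chain hp hq l' hl'⟩)
      (by
        have h1 := congrArg (bprod_inj_psi hp0 hq0) h
        rw [bprod_inj_psi_bprod, bprod_inj_psi_bprod] at h1
        exact h1)
    obtain ⟨h1, h2⟩ := key
    simp only [bprod_inj_tl_map] at h1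
    cases l' with
    | nil => simp at h1
    | cons b' m' =>
      simp only [List.map_cons, List.cons.injEq] at h1
      have hb : b.2 = b'.2 := bprod_inj_ub_inj h1.1
      have h3 := h2 (bprod_inj_ub b.2) (by simp [bprod_inj_tl])
      have g1 := hl.1 b (by simp)
      have g2 := hl'.1 b' (by simp)
      have hj : b.1 = b'.1 := by
        obtain ⟨j, c⟩ := b
        obtain ⟨j', c'⟩ := b'
        simp only at hb
        subst hb
        by_contra hne
        simp only [bprod_inj_hd] at h3
        have hpos : (0 : ℤ) < |-j + j'| := by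
          rw [abs_pos]
          intro h0
          apply hne
          show j = j'
          omega
        cases c
        · have h4 : (Multiplicative.ofAdd j)⁻¹ * Multiplicative.ofAdd j' ∈
              (powMonoidHom p : bprod_inj_GZ →* bprod_inj_GZ).range := by
            simpa [bprod_inj_ub] using h3
          rw [bprod_inj_gz_mem] at h4
          have h5 : (p : ℤ) ∣ -j + j' := by simpa using h4
          have h6 := Int.le_of_dvd hpos ((dvd_abs _ _).2 h5)
          have a1 := g1.2 rfl
          have a2 := g2.2 rfl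
          simp only at a1 a2
          rcases abs_cases (-j + j') with ⟨h7, _⟩ | ⟨h7, _⟩ <;> rw [h7] at h6 <;> omega
        · have h4 : (Multiplicative.ofAdd j)⁻¹ * Multiplicative.ofAdd j' ∈
              (powMonoidHom q : bprod_inj_GZ →* bprod_inj_GZ).range := by
            simpa [bprod_inj_ub] using h3
          rw [bprod_inj_gz_mem] at h4
          have h5 : (q : ℤ) ∣ -j + j' := by simpa using h4
          have h6 := Int.le_of_dvd hpos ((dvd_abs _ _).2 h5)
          have a1 := g1.1 rfl
          have a2 := g2.1 rfl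
          simp only at a1 a2
          rcases abs_cases (-j + j') with ⟨h7, _⟩ | ⟨h7, _⟩ <;> rw [h7] at h6 <;> omega
      have hbb : b = b' := Prod.ext hj hb
      subst hbb
      have e : ∀ m, bprod p q (b :: m) = blk p q b * bprod p q m := by
        intro m
        unfold bprod
        rw [List.map_cons, List.prod_cons]
      rw [e, e] at h
      have h8 := mul_left_cancel h
      rw [ih m' hl.tail hl'.tail h8]

/-! ### Counting -/

/-- `∑ z^|j|` over the nonzero `j` with `-m < 2 j ≤ m`. -/
noncomputable def A (m : ℕ) (z : ℝ) : ℝ :=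
  (∑ i ∈ Finset.range (m / 2), z ^ (i + 1)) + ∑ i ∈ Finset.range ((m - 1) / 2), z ^ (i + 1)

def posB (m : ℕ) (c : Bool) : Finset (ℤ × Bool) :=
  (Finset.range (m / 2)).image fun i : ℕ => ((i : ℤ) + 1, c)

def negB (m : ℕ) (c : Bool) : Finset (ℤ × Bool) :=
  (Finset.range ((m - 1) / 2)).image fun i : ℕ => (-((i : ℤ) + 1), c)

def NB (p q : ℕ) : Finset (ℤ × Bool) :=
  (posB q true ∪ negB q true) ∪ (posB p false ∪ negB p false)

theorem mem_posB {m : ℕ} {c : Bool} {b : ℤ × Bool} (h : b ∈ posB m c) :
    b.2 = c ∧ 0 < b.1 ∧ 2 * b.1 ≤ m := by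
  unfold posB at h
  rw [Finset.mem_image] at h
  obtain ⟨i, hi, rfl⟩ := h
  rw [Finset.mem_range] at hi
  refine ⟨rfl, ?_, ?_⟩ <;> simp only <;> omega

theorem mem_negB {m : ℕ} {c : Bool} {b : ℤ × Bool} (h : b ∈ negB m c) :
    b.2 = c ∧ b.1 < 0 ∧ -(m : ℤ) < 2 * b.1 := by
  unfold negB at h
  rw [Finset.mem_image] at h
  obtain ⟨i, hi, rfl⟩ := h
  rw [Finset.mem_range] at hi
  refine ⟨rfl, ?_, ?_⟩ <;> simp only <;> omega

theorem mem_NB {p q : ℕ} {b : ℤ × Bool} (h : b ∈ NB p q) : Adm p q b ∧ b.1 ≠ 0 := by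
  unfold NB at h
  simp only [Finset.mem_union] at h
  rcases h with (h | h) | (h | h)
  · obtain ⟨h1, h2, h3⟩ := mem_posB h
    refine ⟨⟨fun _ => ⟨by omega, h3⟩, fun h4 => ?_⟩, by omega⟩
    rw [h1] at h4
    cases h4
  · obtain ⟨h1, h2, h3⟩ := mem_negB h
    refine ⟨⟨fun _ => ⟨h3, by omega⟩, fun h4 => ?_⟩, by omega⟩
    rw [h1] at h4
    cases h4
  · obtain ⟨h1, h2, h3⟩ := mem_posB h
    refine ⟨⟨fun h4 => ?_, fun _ => ⟨by omega, h3⟩⟩, by omega⟩
    rw [h1] at h4
    cases h4
  · obtain ⟨h1, h2, h3⟩ := mem_negB h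
    refine ⟨⟨fun h4 => ?_, fun _ => ⟨h3, by omega⟩⟩, by omega⟩
    rw [h1] at h4
    cases h4

theorem sum_posB (m : ℕ) (c : Bool) (z : ℝ) :
    ∑ b ∈ posB m c, z ^ b.1.natAbs = ∑ i ∈ Finset.range (m / 2), z ^ (i + 1) := by
  unfold posB
  rw [Finset.sum_image]
  · apply Finset.sum_congr rfl
    intro i _
    congr 1
  · intro i _ j _ h
    have := congrArg Prod.fst h
    simp only at this
    omega

theorem sum_negB (m : ℕ) (c : Bool) (z : ℝ) :
    ∑ b ∈ negB m c, z ^ b.1.natAbs = ∑ i ∈ Finset.range ((m - 1) / 2), z ^ (i + 1) := by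
  unfold negB
  rw [Finset.sum_image]
  · apply Finset.sum_congr rfl
    intro i _
    congr 1
  · intro i _ j _ h
    have := congrArg Prod.fst h
    simp only at this
    omega

theorem sum_half (m : ℕ) (c : Bool) (z : ℝ) :
    ∑ b ∈ posB m c ∪ negB m c, z ^ b.1.natAbs = A m z := by
  rw [Finset.sum_union, sum_posB, sum_negB]
  · rfl
  · rw [Finset.disjoint_left]
    intro b h1 h2
    have := mem_posB h1
    have := mem_negB h2
    omega

theorem sum_NB (p q : ℕ) (z : ℝ) : ∑ b ∈ NB p q, z ^ b.1.natAbs = A p z + A q z := by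
  unfold NB
  rw [Finset.sum_union, sum_half, sum_half, add_comm]
  rw [Finset.disjoint_left]
  intro b h1 h2
  have e1 : b.2 = true := by
    rw [Finset.mem_union] at h1
    rcases h1 with h1 | h1
    · exact (mem_posB h1).1
    · exact (mem_negB h1).1
  have e2 : b.2 = false := by
    rw [Finset.mem_union] at h2
    rcases h2 with h2 | h2
    · exact (mem_posB h2).1
    · exact (mem_negB h2).1
  rw [e1] at e2
  cases e2

/-- the direction of the last block (lists are stored in reverse order) -/
def sgn : List (ℤ × Bool) → Bool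
  | [] => true
  | b :: _ => b.2

def ext (p q : ℕ) (l : List (ℤ × Bool)) : Finset (ℤ × Bool) := insert (0, sgn l) (NB p q)

/-- reversed good lists of `k` blocks -/
def G (p q : ℕ) : ℕ → Finset (List (ℤ × Bool))
  | 0 => {[]}
  | k + 1 => (G p q k).biUnion fun l => (ext p q l).image fun b => b :: l

theorem sum_ext (p q : ℕ) (l : List (ℤ × Bool)) (z : ℝ) :
    ∑ b ∈ ext p q l, z ^ b.1.natAbs = 1 + (A p z + A q z) := by
  unfold ext
  rw [Finset.sum_insert, sum_NB]
  · simp
  · intro h
    exact (mem_NB h).2 rfl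

theorem sum_G (p q : ℕ) (z : ℝ) (k : ℕ) :
    ∑ l ∈ G p q k, z ^ wt l = (z * (1 + (A p z + A q z))) ^ k := by
  induction k with
  | zero => simp [G, wt]
  | succ k ih =>
    have h : G p q (k + 1) = (G p q k).biUnion fun l => (ext p q l).image fun b => b :: l := rfl
    rw [h, Finset.sum_biUnion]
    · have h2 : ∀ l ∈ G p q k, ∑ l' ∈ (ext p q l).image (fun b => b :: l), z ^ wt l' =
          z ^ wt l * (z * (1 + (A p z + A q z))) := by
        intro l _
        rw [Finset.sum_image (fun b _ b' _ hb => (List.cons.inj hb).1), ← sum_ext p q l z,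
          Finset.mul_sum, Finset.mul_sum]
        apply Finset.sum_congr rfl
        intro b _
        rw [count_lists_wt_cons]
        ring
      rw [Finset.sum_congr rfl h2, ← Finset.sum_mul, ih, pow_succ]
    · intro l _ l' _ hne
      rw [Function.onFun, Finset.disjoint_left]
      intro m h1 h2
      rw [Finset.mem_image] at h1 h2
      obtain ⟨b, _, rfl⟩ := h1
      obtain ⟨b', _, hb'⟩ := h2
      exact hne (List.cons.inj hb').2.symm

theorem good_G {p q : ℕ} (hp : 1 < p) (hq : p < q) (k : ℕ) : ∀ l ∈ G p q k,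
    GoodPQ p q l.reverse := by
  induction k with
  | zero =>
    intro l hl
    rw [G, Finset.mem_singleton] at hl
    subst hl
    exact ⟨by simp, List.isChain_nil⟩
  | succ k ih =>
    intro l hl
    rw [G, Finset.mem_biUnion] at hl
    obtain ⟨m, hm, hl⟩ := hl
    rw [Finset.mem_image] at hl
    obtain ⟨b, hb, rfl⟩ := hl
    have hm' := ih m hm
    unfold ext at hb
    rw [Finset.mem_insert] at hb
    have hadm : Adm p q b := by
      rcases hb with rfl | hb
      · constructor <;> intro _ <;> constructor <;> simp only <;> omega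
      · exact (mem_NB hb).1
    rw [List.reverse_cons]
    refine ⟨?_, ?_⟩
    · intro c hc
      rw [List.mem_append, List.mem_singleton] at hc
      rcases hc with hc | rfl
      · exact hm'.1 c hc
      · exact hadm
    · rw [List.isChain_append]
      refine ⟨hm'.2, List.isChain_singleton _, ?_⟩
      intro x hx y hy hxy
      rw [List.getLast?_reverse] at hx
      simp only [List.head?_cons, Option.mem_def, Option.some.injEq] at hy
      subst hy
      rcases hb with rfl | hb
      · exfalso
        apply hxy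
        cases m with
        | nil => simp at hx
        | cons c m =>
          simp only [List.head?_cons, Option.mem_def, Option.some.injEq] at hx
          subst hx
          rfl
      · exact (mem_NB hb).2

theorem wt_reverse (l : List (ℤ × Bool)) : wt l.reverse = wt l := by
  unfold wt
  rw [List.map_reverse, List.sum_reverse]

theorem card_fiber_le {p q : ℕ} (hp : 1 < p) (hq : p < q) (k n : ℕ) :
    ((G p q k).filter fun l => wt l = n).card ≤ beta p q n := by
  classical
  have h1 : (((G p q k).filter fun l => wt l = n).image (fun l => bprod p q l.reverse)).card =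
      ((G p q k).filter fun l => wt l = n).card := by
    apply Finset.card_image_of_injOn
    intro l hl l' hl' h
    rw [Finset.mem_coe, Finset.mem_filter] at hl hl'
    exact List.reverse_injective (bprod_inj_pq hp hq _ _ (good_G hp hq k l hl.1)
      (good_G hp hq k l' hl'.1) h)
  rw [← h1]
  unfold beta
  rw [← Set.ncard_coe_finset]
  apply Set.ncard_le_ncard _ (ball_finite p q n)
  intro g hg
  simp only [Finset.coe_image, Set.mem_image, Finset.mem_coe, Finset.mem_filter] at hg
  obtain ⟨l, hl, rfl⟩ := hg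
  exact bprod_mem _ n (by rw [wt_reverse, hl.2])

theorem sum_G_le {p q : ℕ} (hp : 1 < p) (hq : p < q) {z : ℝ} (hz : 0 < z) (k : ℕ) :
    ∃ N : ℕ, ∑ l ∈ G p q k, z ^ wt l ≤ ∑ n ∈ Finset.range N, (beta p q n : ℝ) * z ^ n := by
  classical
  refine ⟨(G p q k).sup wt + 1, ?_⟩
  rw [← Finset.sum_fiberwise_of_maps_to (s := G p q k)
    (t := Finset.range ((G p q k).sup wt + 1)) (g := wt)]
  · apply Finset.sum_le_sum
    intro n _
    have h1 : ∑ l ∈ (G p q k).filter (fun l => wt l = n), z ^ wt l =
        (((G p q k).filter fun l => wt l = n).card : ℝ) * z ^ n := by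
      rw [Finset.sum_congr rfl (g := fun _ => z ^ n), Finset.sum_const, nsmul_eq_mul]
      intro l hl
      rw [Finset.mem_filter] at hl
      rw [hl.2]
    rw [h1]
    exact mul_le_mul_of_nonneg_right (by exact_mod_cast card_fiber_le hp hq k n) (by positivity)
  · intro l hl
    rw [Finset.mem_range, Nat.lt_succ_iff]
    exact Finset.le_sup hl

theorem low1 {p q : ℕ} (hp : 1 < p) (hq : p < q) (ω : ℝ)
    (hω : Tendsto (fun n : ℕ => (beta p q n : ℝ) ^ ((1 : ℝ) / n)) atTop (𝓝 ω)) {z : ℝ} (hz : 0 < z)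
    (hσ : 1 < z * (1 + (A p z + A q z))) : 1 / z ≤ ω := by
  by_contra hlt
  push Not at hlt
  have hω0 : 0 ≤ ω := ge_of_tendsto' hω fun n => by positivity
  obtain ⟨ρ, h1, h2⟩ := exists_between hlt
  have hρ : 0 < ρ := hω0.trans_lt h1
  have hρz : ρ * z < 1 := by
    rwa [lt_div_iff₀ hz] at h2
  have hev : ∀ᶠ n : ℕ in atTop, (beta p q n : ℝ) * z ^ n ≤ (ρ * z) ^ n := by
    filter_upwards [hω.eventually (gt_mem_nhds h1), eventually_ge_atTop 1] with n hn hn1
    rw [mul_pow]
    apply mul_le_mul_of_nonneg_right _ (by positivity)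
    have hn0 : (n : ℝ) ≠ 0 := by positivity
    calc (beta p q n : ℝ) = ((beta p q n : ℝ) ^ ((1 : ℝ) / n)) ^ n := by
          rw [← Real.rpow_natCast, ← Real.rpow_mul (by positivity), one_div_mul_cancel hn0,
            Real.rpow_one]
      _ ≤ ρ ^ n := pow_le_pow_left₀ (by positivity) hn.le n
  have hsum : Summable fun n : ℕ => (beta p q n : ℝ) * z ^ n := by
    have hg : Summable fun n : ℕ => (ρ * z) ^ n := summable_geometric_of_lt_one (by positivity) hρz
    refine Summable.of_norm_bounded_eventually_nat hg ?_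
    filter_upwards [hev] with n hn
    rw [Real.norm_of_nonneg (by positivity)]
    exact hn
  have hbound : ∀ k : ℕ, (z * (1 + (A p z + A q z))) ^ k ≤ ∑' n : ℕ, (beta p q n : ℝ) * z ^ n := by
    intro k
    rw [← sum_G]
    obtain ⟨N, hN⟩ := sum_G_le hp hq hz k
    exact hN.trans (hsum.sum_le_tsum _ fun n _ => by positivity)
  obtain ⟨k, hk⟩ := ((tendsto_pow_atTop_atTop_of_one_lt hσ).eventually
    (eventually_gt_atTop (∑' n : ℕ, (beta p q n : ℝ) * z ^ n))).exists
  exact absurd (hbound k) (not_le.mpr hk)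

/-- The implicit lower bound for the growth rate. -/
theorem low2 {p q : ℕ} (hp : 1 < p) (hq : p < q) (ω : ℝ)
    (hω : Tendsto (fun n : ℕ => (beta p q n : ℝ) ^ ((1 : ℝ) / n)) atTop (𝓝 ω)) :
    1 + (A p (1 / ω) + A q (1 / ω)) ≤ ω := by
  have h23 : 23 / 10 ≤ ω := (Pool.Agent.Results.MP_e0ec03_al.LowerBound.result p q hp hq).2 ω hω
  by_contra hlt
  push Not at hlt
  have hω0 : 0 < ω := by linarith
  set z := 1 / ω with hzdef
  have hz : 0 < z := by positivity
  have hcont : Continuous fun y : ℝ => y * (1 + (A p y + A q y)) := by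
    unfold A
    fun_prop
  have h1 : 1 < z * (1 + (A p z + A q z)) := by
    calc (1 : ℝ) = z * ω := by rw [hzdef]; field_simp
      _ < _ := mul_lt_mul_of_pos_left hlt hz
  have hev : ∀ᶠ y in 𝓝 z, 1 < y * (1 + (A p y + A q y)) :=
    hcont.continuousAt.eventually (lt_mem_nhds h1)
  have hev2 : ∀ᶠ y in 𝓝[<] z, 1 < y * (1 + (A p y + A q y)) := hev.filter_mono nhdsWithin_le_nhds
  have hev3 : ∀ᶠ y in 𝓝[<] z, 0 < y :=
    (lt_mem_nhds hz : ∀ᶠ y in 𝓝 z, 0 < y).filter_mono nhdsWithin_le_nhds
  obtain ⟨y, ⟨hy1, hy2⟩, hy3⟩ := ((hev2.and hev3).and self_mem_nhdsWithin).exists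
  have h2 := low1 hp hq ω hω hy2 hy1
  have h3 : 1 / z = ω := by rw [hzdef]; field_simp
  have h4 : 1 / z < 1 / y := one_div_lt_one_div_of_lt hy2 hy3
  linarith

end Pool.Agent.Y83.BG
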