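import Mathlib
import Pool.Agent.Results.MP_e0ec03_al.LowerBound

set_option autoImplicit false

/-!
# Growth of Baumslag–Solitar groups: the upper bound from the commutation of `a` and `t a^p t⁻¹`
-/

namespace Pool.Agent.Y83.BG

open Filter Topology
open Pool.Agent.Results.MP_e0ec03_al.LowerBound

abbrev Lt : Type := Bool × Bool

/-- reduced words -/
def Red (w : List Lt) : Prop := w.IsChain fun x y => y ≠ (x.1, !x.2)

/-- the word `a t a^p t⁻¹` -/
def u (p : ℕ) : List Lt :=
  (false, true) :: (true, true) :: (List.replicate p (false, true) ++ [(true, false)])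

/-- the word `t a^p t⁻¹ a` -/
def u' (p : ℕ) : List Lt :=
  (true, true) :: (List.replicate p (false, true) ++ [(true, false), (false, true)])

/-- words that avoid `a t a^p t⁻¹` -/
def Av (p : ℕ) (w : List Lt) : Prop := ¬ u p <:+: w

theorem rel_B (p q : ℕ) : (PresentedGroup.of true : B p q) * PresentedGroup.of false ^ p *
    (PresentedGroup.of true)⁻¹ = PresentedGroup.of false ^ q := by
  have h : (PresentedGroup.mk ({rel p q} : Set (FreeGroup Bool)) (rel p q)) = 1 :=
    (QuotientGroup.eq_one_iff _).mpr (Subgroup.subset_normalClosure rfl)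
  have h2 : PresentedGroup.mk ({rel p q} : Set (FreeGroup Bool)) (rel p q) =
      (PresentedGroup.of true : B p q) * PresentedGroup.of false ^ p *
        (PresentedGroup.of true)⁻¹ * (PresentedGroup.of false ^ q)⁻¹ := by
    unfold rel
    rw [map_mul, map_mul, map_mul, map_inv, map_inv, map_pow, map_pow]
    rfl
  rw [h2] at h
  exact mul_inv_eq_one.mp h

theorem val_cons {p q : ℕ} (x : Lt) (w : List Lt) : val p q (x :: w) = val p q [x] * val p q w := by
  rw [← bprod_mem_val_append562]
  rfl

theorem val_u (p q : ℕ) : val p q (u p) = val p q (u' p) := by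
  have h := rel_B p q
  have e1 : val p q (u p) = PresentedGroup.of false * (PresentedGroup.of true *
      PresentedGroup.of false ^ p * (PresentedGroup.of true)⁻¹) := by
    rw [show u p = [((false, true) : Lt)] ++ ([((true, true) : Lt)] ++
      (List.replicate p (false, true) ++ [(true, false)])) from rfl, bprod_mem_val_append562,
      bprod_mem_val_append562, bprod_mem_val_append562, bprod_mem_val_rep562,
      bprod_mem_val_true562, bprod_mem_val_true562, bprod_mem_val_false562]
    group
  have e2 : val p q (u' p) = (PresentedGroup.of true *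
      PresentedGroup.of false ^ p * (PresentedGroup.of true)⁻¹) * PresentedGroup.of false := by
    rw [show u' p = [((true, true) : Lt)] ++ (List.replicate p (false, true) ++
      ([((true, false) : Lt)] ++ [((false, true) : Lt)])) from rfl, bprod_mem_val_append562,
      bprod_mem_val_append562, bprod_mem_val_append562, bprod_mem_val_rep562,
      bprod_mem_val_true562, bprod_mem_val_true562, bprod_mem_val_false562]
    group
  rw [e1, e2, h, ← pow_succ, ← pow_succ']

theorem val_cancel (p q : ℕ) (x : Lt) : val p q [x, (x.1, !x.2)] = 1 := by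
  rw [show [x, (x.1, !x.2)] = [x] ++ [(x.1, !x.2)] from rfl, bprod_mem_val_append562]
  obtain ⟨x1, x2⟩ := x
  cases x2
  · simp only [Bool.not_false]
    rw [bprod_mem_val_true562, bprod_mem_val_false562, inv_mul_cancel]
  · simp only [Bool.not_true]
    rw [bprod_mem_val_true562, bprod_mem_val_false562, mul_inv_cancel]

/-! ### The potential -/

def cT (w : List Lt) : ℕ := w.countP fun x => x.1
def cA (w : List Lt) : ℕ := w.countP fun x => !x.1

/-- number of pairs `a^{±1} … t^{±1}` -/
def iv : List Lt → ℕ
  | [] => 0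
  | x :: w => (if x.1 then 0 else cT w) + iv w

theorem cT_append (x y : List Lt) : cT (x ++ y) = cT x + cT y := List.countP_append
theorem cA_append (x y : List Lt) : cA (x ++ y) = cA x + cA y := List.countP_append

theorem iv_append (x y : List Lt) : iv (x ++ y) = iv x + iv y + cA x * cT y := by
  induction x with
  | nil => simp [iv, cA]
  | cons b x ih =>
    rw [List.cons_append, iv, iv, ih, cT_append]
    obtain ⟨b1, b2⟩ := b
    have h : cA ((b1, b2) :: x) = cA x + if b1 then 0 else 1 := by
      unfold cA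
      rw [List.countP_cons]
      cases b1 <;> simp
    rw [h]
    cases b1
    · simp
      ring
    · simp

theorem cT_rep (k : ℕ) : cT (List.replicate k (false, true)) = 0 := by
  unfold cT
  rw [List.countP_eq_zero]
  intro x hx
  rw [List.eq_of_mem_replicate hx]
  simp

theorem cA_rep (k : ℕ) : cA (List.replicate k (false, true)) = k := by
  induction k with
  | zero => rfl
  | succ k ih =>
    rw [List.replicate_succ]
    unfold cA at ih ⊢
    rw [List.countP_cons, ih]
    simp

theorem iv_rep (k : ℕ) : iv (List.replicate k (false, true)) = 0 := by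
  induction k with
  | zero => rfl
  | succ k ih =>
    rw [List.replicate_succ, iv, ih, cT_rep]
    simp

theorem cT_u (p : ℕ) : cT (u p) = cT (u' p) := by
  have h1 : u p = [(false, true), (true, true)] ++ (List.replicate p (false, true) ++
    [(true, false)]) := rfl
  have h2 : u' p = [(true, true)] ++ (List.replicate p (false, true) ++
    [(true, false), (false, true)]) := rfl
  rw [h1, h2, cT_append, cT_append, cT_append, cT_append, cT_rep]
  rfl

theorem cA_u (p : ℕ) : cA (u p) = cA (u' p) := by
  have h1 : u p = [(false, true), (true, true)] ++ (List.replicate p (false, true) ++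
    [(true, false)]) := rfl
  have h2 : u' p = [(true, true)] ++ (List.replicate p (false, true) ++
    [(true, false), (false, true)]) := rfl
  rw [h1, h2, cA_append, cA_append, cA_append, cA_append, cA_rep]
  have e1 : cA [((false, true) : Lt), (true, true)] = 1 := rfl
  have e2 : cA [((true, false) : Lt)] = 0 := rfl
  have e3 : cA [((true, true) : Lt)] = 0 := rfl
  have e4 : cA [((true, false) : Lt), (false, true)] = 1 := rfl
  rw [e1, e2, e3, e4]
  ring

theorem iv_u (p : ℕ) : iv (u' p) + 2 = iv (u p) := by
  have h1 : u p = [(false, true), (true, true)] ++ (List.replicate p (false, true) ++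
    [(true, false)]) := rfl
  have h2 : u' p = [(true, true)] ++ (List.replicate p (false, true) ++
    [(true, false), (false, true)]) := rfl
  rw [h1, h2, iv_append, iv_append, iv_append, iv_append, cT_append, cT_append, cA_rep, cT_rep,
    iv_rep]
  have e1 : cA [((false, true) : Lt), (true, true)] = 1 := rfl
  have e3 : cA [((true, true) : Lt)] = 0 := rfl
  have e5 : cT [((true, false) : Lt)] = 1 := rfl
  have e6 : cT [((true, false) : Lt), (false, true)] = 1 := rfl
  have e7 : iv [((true, true) : Lt)] = 0 := rfl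
  have e8 : iv [((false, true) : Lt), (true, true)] = 1 := rfl
  have e9 : iv [((true, false) : Lt)] = 0 := rfl
  have e10 : iv [((true, false) : Lt), (false, true)] = 0 := rfl
  rw [e1, e3, e5, e6, e7, e8, e9, e10]
  ring

theorem length_u (p : ℕ) : (u p).length = p + 3 := by
  simp [u]

theorem length_u' (p : ℕ) : (u' p).length = p + 3 := by
  simp [u']

/-- Every element of the ball has a reduced word that avoids `u`. -/
theorem exists_word {p q n : ℕ} (g : B p q) (hg : g ∈ ball p q n) :
    ∃ w : List Lt, w.length ≤ n ∧ val p q w = g ∧ Red w ∧ Av p w := by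
  have hne : {w : List Lt | w.length ≤ n ∧ val p q w = g}.Nonempty := hg
  obtain ⟨w, ⟨hw1, hw2⟩, hmin⟩ := (measure fun w : List Lt => w.length + iv w).wf.has_min _ hne
  refine ⟨w, hw1, hw2, ?_, ?_⟩
  · by_contra hred
    unfold Red at hred
    have h1 : ∃ (x : Lt) (l₁ l₂ : List Lt), w = l₁ ++ [x, (x.1, !x.2)] ++ l₂ := by
      rw [List.isChain_iff_forall_rel_of_append_cons_cons] at hred
      push Not at hred
      obtain ⟨a, b, l₁, l₂, h1, h2⟩ := hred
      exact ⟨a, l₁, l₂, by rw [h1, h2]; simp⟩
    obtain ⟨x, l₁, l₂, rfl⟩ := h1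
    apply hmin (l₁ ++ l₂)
    · refine ⟨?_, ?_⟩
      · simp only [List.length_append, List.length_cons, List.length_nil] at hw1 ⊢
        omega
      · rw [← hw2, bprod_mem_val_append562, bprod_mem_val_append562, bprod_mem_val_append562,
          val_cancel, mul_one]
    · show (l₁ ++ l₂).length + iv (l₁ ++ l₂) < _
      simp only [iv_append, cA_append, List.length_append, List.length_cons, List.length_nil]
      nlinarith [Nat.zero_le (cA [x, (x.1, !x.2)] * cT l₂),
        Nat.zero_le (cA l₁ * cT [x, (x.1, !x.2)]), Nat.zero_le (iv [x, (x.1, !x.2)])]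
  · rintro ⟨l₁, l₂, rfl⟩
    apply hmin (l₁ ++ u' p ++ l₂)
    · refine ⟨?_, ?_⟩
      · simp only [List.length_append, length_u, length_u'] at hw1 ⊢
        omega
      · rw [← hw2, bprod_mem_val_append562, bprod_mem_val_append562, bprod_mem_val_append562,
          bprod_mem_val_append562, val_u]
    · show (l₁ ++ u' p ++ l₂).length + iv (l₁ ++ u' p ++ l₂) < (l₁ ++ u p ++ l₂).length +
        iv (l₁ ++ u p ++ l₂)
      simp only [iv_append, cA_append, List.length_append, length_u, length_u', cT_u, cA_u,
        ← iv_u]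
      omega

/-! ### Counting words -/

open Classical in
noncomputable def E (x : Lt) : ℕ → Finset (List Lt)
  | 0 => {[]}
  | k + 1 => (E x k).biUnion fun v =>
      (Finset.univ.filter fun y : Lt => (v.headD x) ≠ (y.1, !y.2)).image fun y => y :: v

theorem card_three : ∀ h : Lt, (Finset.univ.filter fun y : Lt => h ≠ (y.1, !y.2)).card ≤ 3 := by
  decide

theorem card_E (x : Lt) (k : ℕ) : (E x k).card ≤ 3 ^ k := by
  classical
  induction k with
  | zero => simp [E]
  | succ k ih =>
    rw [E]
    calc _ ≤ ∑ v ∈ E x k, 3 := by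
          refine Finset.card_biUnion_le.trans (Finset.sum_le_sum fun v _ => ?_)
          exact Finset.card_image_le.trans (by convert card_three (v.headD x))
      _ = (E x k).card * 3 := by rw [Finset.sum_const, smul_eq_mul]
      _ ≤ 3 ^ k * 3 := Nat.mul_le_mul_right 3 ih
      _ = 3 ^ (k + 1) := by rw [pow_succ]

theorem mem_E (x : Lt) (k : ℕ) (v : List Lt) (hv : v.length = k) (hc : Red (v ++ [x])) :
    v ∈ E x k := by
  classical
  induction k generalizing v with
  | zero =>
    rw [List.length_eq_zero_iff] at hv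
    subst hv
    simp [E]
  | succ k ih =>
    cases v with
    | nil => simp at hv
    | cons y v =>
      simp only [List.length_cons, add_left_inj] at hv
      unfold Red at hc
      rw [List.cons_append] at hc
      have hc' := List.isChain_cons.1 hc
      rw [E, Finset.mem_biUnion]
      refine ⟨v, ih v hv hc'.2, ?_⟩
      rw [Finset.mem_image]
      refine ⟨y, ?_, rfl⟩
      rw [Finset.mem_filter]
      refine ⟨Finset.mem_univ _, ?_⟩
      apply hc'.1
      cases v with
      | nil => simp
      | cons z v => simp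

theorem exists_bad {p : ℕ} (hp : 1 < p) (x : Lt) : ∃ v : List Lt, v.length = p + 4 ∧
    Red (v ++ [x]) ∧ u p <:+: v := by
  obtain ⟨y, hy1, hy2⟩ : ∃ y : Lt, y.1 = false ∧ x ≠ (y.1, !y.2) := by
    by_cases hx : x = (false, false)
    · exact ⟨(false, false), rfl, by rw [hx]; decide⟩
    · exact ⟨(false, true), rfl, hx⟩
  refine ⟨u p ++ [y], by rw [List.length_append, length_u]; rfl, ?_, ⟨[], [y], by simp⟩⟩
  obtain ⟨k, rfl⟩ : ∃ k, p = k + 1 := ⟨p - 1, by omega⟩
  have hrep : ∀ k : ℕ, Red ((false, true) :: (List.replicate k (false, true) ++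
      [(true, false), y, x])) := by
    intro k
    induction k with
    | zero =>
      show Red [(false, true), (true, false), y, x]
      unfold Red
      simp only [List.isChain_cons_cons, List.isChain_singleton, and_true]
      refine ⟨by decide, ?_, hy2⟩
      intro h
      rw [h] at hy1
      cases hy1
    | succ k ih =>
      rw [List.replicate_succ, List.cons_append]
      unfold Red at ih ⊢
      rw [List.isChain_cons_cons]
      exact ⟨by decide, ih⟩
  have h1 : u (k + 1) ++ [y] ++ [x] = (false, true) :: (true, true) :: (false, true) ::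
      (List.replicate k (false, true) ++ [(true, false), y, x]) := by
    simp [u, List.replicate_succ]
  rw [h1]
  have := hrep k
  unfold Red at this ⊢
  rw [List.isChain_cons_cons, List.isChain_cons_cons]
  exact ⟨by decide, by decide, this⟩

open Classical in
/-- the reduced words of length `m` that avoid `u` -/
noncomputable def RR (p m : ℕ) : Finset (List Lt) :=
  (List.finite_length_eq Lt m).toFinset.filter fun w => Red w ∧ Av p w

theorem mem_RR {p m : ℕ} {w : List Lt} : w ∈ RR p m ↔ w.length = m ∧ Red w ∧ Av p w := by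
  classical
  unfold RR
  rw [Finset.mem_filter, Set.Finite.mem_toFinset]
  rfl

theorem card_RR_step {p : ℕ} (hp : 1 < p) {m : ℕ} (hm : 1 ≤ m) :
    (RR p (m + (p + 4))).card ≤ (3 ^ (p + 4) - 1) * (RR p m).card := by
  classical
  have hsub : RR p (m + (p + 4)) ⊆ (RR p m).biUnion fun w' =>
      ((E (w'.headD (false, true)) (p + 4)).filter (Av p)).image fun v => v ++ w' := by
    intro w hw
    rw [mem_RR] at hw
    obtain ⟨hl, hr, ha⟩ := hw
    have hsplit : w.take (p + 4) ++ w.drop (p + 4) = w := List.take_append_drop _ _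
    have hlt : (w.take (p + 4)).length = p + 4 := by
      rw [List.length_take]
      omega
    have hld : (w.drop (p + 4)).length = m := by
      rw [List.length_drop]
      omega
    have hr1 : Red (w.take (p + 4) ++ w.drop (p + 4)) := by rw [hsplit]; exact hr
    rw [Finset.mem_biUnion]
    refine ⟨w.drop (p + 4), ?_, ?_⟩
    · rw [mem_RR]
      refine ⟨hld, List.IsChain.right_of_append hr1, fun hc => ha ?_⟩
      exact hc.trans (List.drop_suffix _ _).isInfix
    · rw [Finset.mem_image]
      refine ⟨w.take (p + 4), ?_, hsplit⟩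
      rw [Finset.mem_filter]
      refine ⟨?_, fun hc => ha (hc.trans (List.take_prefix _ _).isInfix)⟩
      apply mem_E _ _ _ hlt
      obtain ⟨x, rest, hx⟩ : ∃ x rest, w.drop (p + 4) = x :: rest := by
        cases h : w.drop (p + 4) with
        | nil => rw [h] at hld; simp at hld; omega
        | cons x rest => exact ⟨x, rest, rfl⟩
      rw [hx] at hr1 ⊢
      simp only [List.headD_cons]
      rw [show w.take (p + 4) ++ x :: rest = (w.take (p + 4) ++ [x]) ++ rest by simp] at hr1
      exact List.IsChain.left_of_append hr1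
  refine (Finset.card_le_card hsub).trans ?_
  refine Finset.card_biUnion_le.trans ?_
  have hone : ∀ w' ∈ RR p m, (((E (w'.headD (false, true)) (p + 4)).filter (Av p)).image
      fun v => v ++ w').card ≤ 3 ^ (p + 4) - 1 := by
    intro w' _
    refine Finset.card_image_le.trans ?_
    obtain ⟨v, hv1, hv2, hv3⟩ := exists_bad hp (w'.headD (false, true))
    have hv := mem_E _ _ v hv1 hv2
    have hlt : ((E (w'.headD (false, true)) (p + 4)).filter (Av p)).card <
        (E (w'.headD (false, true)) (p + 4)).card := by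
      apply Finset.card_lt_card
      rw [Finset.filter_ssubset]
      exact ⟨v, hv, fun h => h hv3⟩
    have := card_E (w'.headD (false, true)) (p + 4)
    omega
  calc _ ≤ ∑ _w' ∈ RR p m, (3 ^ (p + 4) - 1) := Finset.sum_le_sum hone
    _ = _ := by rw [Finset.sum_const, smul_eq_mul, mul_comm]

theorem beta_le (p q n : ℕ) : beta p q n ≤ ∑ m ∈ Finset.range (n + 1), (RR p m).card := by
  classical
  have hsub : ball p q n ⊆ (((Finset.range (n + 1)).biUnion (RR p)).image (val p q) : Set (B p q)) := by
    intro g hg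
    obtain ⟨w, h1, h2, h3, h4⟩ := exists_word g hg
    simp only [Finset.coe_image, Set.mem_image, Finset.mem_coe, Finset.mem_biUnion,
      Finset.mem_range]
    exact ⟨w, ⟨w.length, by omega, mem_RR.mpr ⟨rfl, h3, h4⟩⟩, h2⟩
  unfold beta
  refine (Set.ncard_le_ncard hsub (Finset.finite_toSet _)).trans ?_
  rw [Set.ncard_coe_finset]
  exact Finset.card_image_le.trans Finset.card_biUnion_le

theorem card_RR_le {p : ℕ} (hp : 1 < p) : ∃ M : ℕ, 1 ≤ M ∧ ∀ m,
    (RR p m).card ≤ M * (3 ^ (p + 4) - 1) ^ (m / (p + 4)) := by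
  refine ⟨∑ m ∈ Finset.range (p + 5), (RR p m).card + 1, by omega, ?_⟩
  have hK : 1 ≤ 3 ^ (p + 4) - 1 := by
    have : 3 ^ 1 ≤ 3 ^ (p + 4) := Nat.pow_le_pow_right (by norm_num) (by omega)
    omega
  intro m
  induction m using Nat.strong_induction_on with
  | _ m ih =>
    rcases Nat.lt_or_ge m (p + 5) with hm | hm
    · have h1 : (RR p m).card ≤ ∑ m ∈ Finset.range (p + 5), (RR p m).card :=
        Finset.single_le_sum (f := fun m => (RR p m).card) (fun _ _ => Nat.zero_le _)
          (Finset.mem_range.mpr hm)
      calc (RR p m).card ≤ (∑ m ∈ Finset.range (p + 5), (RR p m).card + 1) * 1 := by omega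
        _ ≤ _ := Nat.mul_le_mul_left _ (Nat.one_le_pow _ _ hK)
    · obtain ⟨m', rfl⟩ : ∃ m', m = m' + (p + 4) := ⟨m - (p + 4), by omega⟩
      have h1 := card_RR_step hp (m := m') (by omega)
      have h2 := ih m' (by omega)
      rw [Nat.add_div_right _ (by omega), pow_succ]
      calc _ ≤ (3 ^ (p + 4) - 1) * (RR p m').card := h1
        _ ≤ (3 ^ (p + 4) - 1) * ((∑ m ∈ Finset.range (p + 5), (RR p m).card + 1) *
            (3 ^ (p + 4) - 1) ^ (m' / (p + 4))) := Nat.mul_le_mul_left _ h2
        _ = _ := by ring

/-- The upper bound for the growth rate. -/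
theorem up {p q : ℕ} (hp : 1 < p) (ω : ℝ)
    (hω : Tendsto (fun n : ℕ => (beta p q n : ℝ) ^ ((1 : ℝ) / n)) atTop (𝓝 ω)) :
    ω ^ (p + 4) ≤ 3 ^ (p + 4) - 1 := by
  obtain ⟨M, hM, hRR⟩ := card_RR_le hp
  have hω0 : 0 ≤ ω := ge_of_tendsto' hω fun n => by positivity
  have hKn : 1 ≤ 3 ^ (p + 4) - 1 := by
    have : 3 ^ 1 ≤ 3 ^ (p + 4) := Nat.pow_le_pow_right (by norm_num) (by omega)
    omega
  have hKr : ((3 ^ (p + 4) - 1 : ℕ) : ℝ) = 3 ^ (p + 4) - 1 := by
    rw [Nat.cast_sub (Nat.one_le_pow _ _ (by norm_num))]
    push_cast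
    ring
  rw [← hKr]
  set K : ℝ := ((3 ^ (p + 4) - 1 : ℕ) : ℝ) with hK
  have hK1 : 1 ≤ K := by rw [hK]; exact_mod_cast hKn
  set κ : ℝ := K ^ ((1 : ℝ) / (p + 4 : ℕ)) with hκ
  have hκ1 : 1 ≤ κ := Real.one_le_rpow hK1 (by positivity)
  have hκL : κ ^ (p + 4) = K := by
    rw [hκ, ← Real.rpow_natCast, ← Real.rpow_mul (by linarith), one_div_mul_cancel (by positivity),
      Real.rpow_one]
  have hb : ∀ n : ℕ, (beta p q n : ℝ) ≤ ((n : ℝ) + 1) * M * κ ^ n := by
    intro n
    have h1 : beta p q n ≤ ∑ m ∈ Finset.range (n + 1), M * (3 ^ (p + 4) - 1) ^ (n / (p + 4)) := by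
      refine (beta_le p q n).trans (Finset.sum_le_sum fun m hm => ?_)
      rw [Finset.mem_range] at hm
      refine (hRR m).trans (Nat.mul_le_mul_left _ (Nat.pow_le_pow_right hKn ?_))
      exact Nat.div_le_div_right (by omega)
    rw [Finset.sum_const, Finset.card_range, smul_eq_mul] at h1
    have h2 : (beta p q n : ℝ) ≤ ((n : ℝ) + 1) * (M * K ^ (n / (p + 4))) := by
      have : ((beta p q n : ℕ) : ℝ) ≤
          (((n + 1) * (M * (3 ^ (p + 4) - 1) ^ (n / (p + 4))) : ℕ) : ℝ) := by exact_mod_cast h1
      rw [hK]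
      push_cast at this ⊢
      exact this
    refine h2.trans ?_
    rw [← mul_assoc]
    apply mul_le_mul_of_nonneg_left _ (by positivity)
    rw [← hκL, ← pow_mul]
    exact pow_le_pow_right₀ hκ1 (Nat.mul_div_le n (p + 4))
  have hle : ω ≤ κ := by
    by_contra hlt
    push Not at hlt
    obtain ⟨ρ, h1, h2⟩ := exists_between hlt
    have hκ0 : 0 < κ := by linarith
    have hρ0 : 0 < ρ := by linarith
    have hr : 1 < ρ / κ := by rwa [one_lt_div hκ0]
    have hev : ∀ᶠ n : ℕ in atTop, ρ ^ n ≤ (beta p q n : ℝ) := by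
      filter_upwards [hω.eventually (lt_mem_nhds h2), eventually_ge_atTop 1] with n hn hn1
      have hn0 : (n : ℝ) ≠ 0 := by positivity
      calc ρ ^ n ≤ ((beta p q n : ℝ) ^ ((1 : ℝ) / n)) ^ n := pow_le_pow_left₀ hρ0.le hn.le n
        _ = (beta p q n : ℝ) := by
          rw [← Real.rpow_natCast, ← Real.rpow_mul (by positivity), one_div_mul_cancel hn0,
            Real.rpow_one]
    have ht1 := tendsto_pow_const_div_const_pow_of_one_lt 1 hr
    have ht0 := tendsto_pow_const_div_const_pow_of_one_lt 0 hr
    have ht : Tendsto (fun n : ℕ => (M : ℝ) * ((n : ℝ) ^ 1 / (ρ / κ) ^ n + (n : ℝ) ^ 0 / (ρ / κ) ^ n))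
        atTop (𝓝 ((M : ℝ) * (0 + 0))) := (ht1.add ht0).const_mul _
    rw [add_zero, mul_zero] at ht
    obtain ⟨n, hn1, hn2⟩ := (hev.and (ht.eventually (gt_mem_nhds (zero_lt_one' ℝ)))).exists
    have h3 := hn1.trans (hb n)
    have h4 : (ρ / κ) ^ n ≤ ((n : ℝ) + 1) * M := by
      rw [div_pow, div_le_iff₀ (by positivity)]
      exact h3
    have h5 : (M : ℝ) * ((n : ℝ) ^ 1 / (ρ / κ) ^ n + (n : ℝ) ^ 0 / (ρ / κ) ^ n) =
        (((n : ℝ) + 1) * M) / (ρ / κ) ^ n := by
      rw [pow_one, pow_zero]
      ring
    rw [h5, div_lt_one (by positivity)] at hn2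
    linarith
  calc ω ^ (p + 4) ≤ κ ^ (p + 4) := pow_le_pow_left₀ hω0 hle _
    _ = K := hκL

end Pool.Agent.Y83.BG
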