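import Mathlib
import Pool.Agent.Y83.BG.Low
import Pool.Agent.Y83.BG.Up

set_option autoImplicit false

/-!
# Growth of Baumslag–Solitar groups: existence of the growth rate and explicit bounds
-/

namespace Pool.Agent.Y83.BG

open Filter Topology
open Pool.Agent.Results.MP_e0ec03_al.LowerBound

theorem beta_mul (p q m n : ℕ) : beta p q (m + n) ≤ beta p q m * beta p q n := by
  classical
  have hsub : ball p q (m + n) ⊆ Set.image2 (fun x y => x * y) (ball p q m) (ball p q n) := by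
    rintro g ⟨w, hw, rfl⟩
    refine ⟨val p q (w.take m), ⟨w.take m, ?_, rfl⟩, val p q (w.drop m), ⟨w.drop m, ?_, rfl⟩, ?_⟩
    · rw [List.length_take]
      omega
    · rw [List.length_drop]
      omega
    · show val p q (w.take m) * val p q (w.drop m) = val p q w
      rw [← bprod_mem_val_append562, List.take_append_drop]
  have hf : (Set.image2 (fun x y => x * y) (ball p q m) (ball p q n)).Finite :=
    (ball_finite p q m).image2 _ (ball_finite p q n)
  unfold beta
  refine (Set.ncard_le_ncard hsub hf).trans ?_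
  rw [← Set.image_uncurry_prod, ← Set.ncard_prod]
  exact Set.ncard_image_le ((ball_finite p q m).prod (ball_finite p q n))

theorem beta_pos (p q n : ℕ) : 0 < beta p q n := by
  unfold beta
  rw [Set.ncard_pos (ball_finite p q n)]
  exact ⟨val p q [], [], by simp, rfl⟩

/-- The growth rate exists. -/
theorem exists_rate (p q : ℕ) :
    ∃ ω : ℝ, Tendsto (fun n : ℕ => (beta p q n : ℝ) ^ ((1 : ℝ) / n)) atTop (𝓝 ω) := by
  have hpos : ∀ n, (0 : ℝ) < beta p q n := fun n => by exact_mod_cast beta_pos p q n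
  have hsub : Subadditive fun n : ℕ => Real.log (beta p q n) := by
    intro m n
    simp only
    rw [← Real.log_mul (hpos m).ne' (hpos n).ne']
    apply Real.log_le_log (hpos _)
    exact_mod_cast beta_mul p q m n
  have hbdd : BddBelow (Set.range fun n : ℕ => Real.log (beta p q n) / n) := by
    refine ⟨0, ?_⟩
    rintro _ ⟨n, rfl⟩
    have : (1 : ℝ) ≤ beta p q n := by exact_mod_cast beta_pos p q n
    have := Real.log_nonneg this
    positivity
  have ht := hsub.tendsto_lim hbdd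
  refine ⟨Real.exp hsub.lim, ?_⟩
  have h2 := (Real.continuous_exp.tendsto _).comp ht
  refine h2.congr fun n => ?_
  simp only [Function.comp_apply]
  rw [Real.rpow_def_of_pos (hpos n)]
  congr 1
  ring

theorem two_mul_le (m : ℕ) : 2 * (m : ℝ) ≤ (23 / 10) ^ m := by
  induction m with
  | zero => norm_num
  | succ m ih =>
    rcases Nat.eq_zero_or_pos m with rfl | hm
    · norm_num
    · have hm' : (1 : ℝ) ≤ m := by exact_mod_cast hm
      rw [pow_succ]
      push_cast
      nlinarith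

theorem A_ge (n m : ℕ) (h : m ≤ (n - 1) / 2) {z : ℝ} (hz : 0 ≤ z) :
    2 * ∑ i ∈ Finset.range m, z ^ (i + 1) ≤ A n z := by
  unfold A
  rw [two_mul]
  apply add_le_add
  · exact Finset.sum_le_sum_of_subset_of_nonneg (Finset.range_mono (by omega))
      fun _ _ _ => by positivity
  · exact Finset.sum_le_sum_of_subset_of_nonneg (Finset.range_mono (by omega))
      fun _ _ _ => by positivity

/-- The explicit lower bound. -/
theorem low3 {p q : ℕ} (hp : 1 < p) (hq : p < q) (ω : ℝ)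
    (hω : Tendsto (fun n : ℕ => (beta p q n : ℝ) ^ ((1 : ℝ) / n)) atTop (𝓝 ω)) :
    3 - 3 / 3 ^ ((p - 1) / 2) ≤ ω := by
  have h23 : 23 / 10 ≤ ω := (Pool.Agent.Results.MP_e0ec03_al.LowerBound.result p q hp hq).2 ω hω
  rcases le_or_gt 3 ω with h3 | h3
  · have : (0 : ℝ) ≤ 3 / 3 ^ ((p - 1) / 2) := by positivity
    linarith
  have h := low2 hp hq ω hω
  set m := (p - 1) / 2 with hm
  have hω0 : 0 < ω := by linarith
  set z := 1 / ω with hz
  have hz0 : 0 < z := by positivity
  have hz1 : z ≤ 10 / 23 := by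
    rw [hz, div_le_iff₀ hω0]
    linarith
  have hzω : z * ω = 1 := by rw [hz]; field_simp
  have hAp := A_ge p m le_rfl hz0.le
  have hAq := A_ge q m (by omega) hz0.le
  have hgeo : (∑ i ∈ Finset.range m, z ^ (i + 1)) * (ω - 1) = 1 - z ^ m := by
    have h1 : ∑ i ∈ Finset.range m, z ^ (i + 1) = z * ∑ i ∈ Finset.range m, z ^ i := by
      rw [Finset.mul_sum]
      apply Finset.sum_congr rfl
      intro i _
      ring
    have h2 := geom_sum_mul z m
    rw [h1]
    have h4 : z * (ω - 1) = 1 - z := by linear_combination hzω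
    linear_combination (∑ i ∈ Finset.range m, z ^ i) * h4 - h2
  set S := ∑ i ∈ Finset.range m, z ^ (i + 1) with hS
  set x := z ^ m with hx
  have hx0 : 0 ≤ x := by positivity
  have hx1 : x ≤ 1 := pow_le_one₀ hz0.le (by linarith)
  have h5 : 1 + 4 * S ≤ ω := by linarith
  have h6 : 4 * (1 - x) ≤ (ω - 1) ^ 2 := by
    rw [← hgeo]
    nlinarith
  have h7 : 2 * (1 - x) ≤ ω - 1 := by
    nlinarith
  -- `ε = 3 - ω ≤ 2 x`
  have hε : 3 - ω ≤ 2 * x := by linarith
  have hx2 : x ≤ (10 / 23) ^ m := pow_le_pow_left₀ hz0.le hz1 m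
  have h8 := two_mul_le m
  have h9 : (m : ℝ) * (3 - ω) ≤ 1 := by
    have e1 : ((10 : ℝ) / 23) ^ m * (23 / 10) ^ m = 1 := by
      rw [← mul_pow]
      norm_num
    have e2 : (0 : ℝ) ≤ (10 / 23) ^ m := by positivity
    calc (m : ℝ) * (3 - ω) ≤ m * (2 * (10 / 23) ^ m) := by
          apply mul_le_mul_of_nonneg_left _ (by positivity)
          linarith
      _ = (2 * m) * (10 / 23) ^ m := by ring
      _ ≤ (23 / 10) ^ m * (10 / 23) ^ m := mul_le_mul_of_nonneg_right h8 e2
      _ = 1 := by rw [mul_comm]; exact e1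
  have h10 : 2 / 3 ≤ (ω / 3) ^ m := by
    have e1 := one_add_mul_le_pow (a := ω / 3 - 1) (by linarith) m
    have e2 : 1 + (ω / 3 - 1) = ω / 3 := by ring
    rw [e2] at e1
    nlinarith
  have h11 : x * 3 ^ m ≤ 3 / 2 := by
    have e1 : x * ω ^ m = 1 := by
      rw [hx, ← mul_pow, hzω, one_pow]
    rw [div_pow, le_div_iff₀ (by positivity)] at h10
    have e2 : (0 : ℝ) < 3 ^ m := by positivity
    nlinarith
  have h12 : 3 - ω ≤ 3 / 3 ^ m := by
    rw [le_div_iff₀ (by positivity)]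
    have e2 : (0 : ℝ) < 3 ^ m := by positivity
    nlinarith
  linarith

/-- The explicit upper bound. -/
theorem up2 {p q : ℕ} (hp : 1 < p) (ω : ℝ)
    (hω : Tendsto (fun n : ℕ => (beta p q n : ℝ) ^ ((1 : ℝ) / n)) atTop (𝓝 ω)) :
    ω ≤ 3 - 1 / ((p + 4) * 3 ^ (p + 3)) := by
  have h := up (q := q) hp ω hω
  by_contra hlt
  push Not at hlt
  set δ : ℝ := 1 / ((p + 4) * 3 ^ (p + 3)) with hδ
  have hδ0 : 0 < δ := by positivity
  have hδ1 : δ ≤ 1 := by
    rw [hδ, div_le_one (by positivity)]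
    have : (1 : ℝ) ≤ 3 ^ (p + 3) := one_le_pow₀ (by norm_num)
    nlinarith [(Nat.cast_nonneg p : (0 : ℝ) ≤ p)]
  have h1 : (3 - δ) ^ (p + 4) < ω ^ (p + 4) := by
    apply pow_lt_pow_left₀ hlt (by linarith)
    omega
  have h2 : (3 : ℝ) ^ (p + 4) - 1 ≤ (3 - δ) ^ (p + 4) := by
    have e1 := one_add_mul_le_pow (a := -(δ / 3)) (by linarith) (p + 4)
    have e2 : (3 - δ) ^ (p + 4) = 3 ^ (p + 4) * (1 + -(δ / 3)) ^ (p + 4) := by
      rw [← mul_pow]
      congr 1
      ring
    rw [e2]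
    have e3 : (0 : ℝ) < 3 ^ (p + 4) := by positivity
    have e4 : (3 : ℝ) ^ (p + 4) * (1 + ((p + 4 : ℕ) : ℝ) * -(δ / 3)) = 3 ^ (p + 4) - 1 := by
      rw [hδ]
      have e5 : (3 : ℝ) ^ (p + 3) ≠ 0 := by positivity
      have e6 : (p : ℝ) + 4 ≠ 0 := by positivity
      push_cast
      rw [show (3 : ℝ) ^ (p + 4) = 3 ^ (p + 3) * 3 by rw [← pow_succ]]
      field_simp
      ring
    calc (3 : ℝ) ^ (p + 4) - 1 = 3 ^ (p + 4) * (1 + ((p + 4 : ℕ) : ℝ) * -(δ / 3)) := e4.symm
      _ ≤ _ := mul_le_mul_of_nonneg_left e1 e3.le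
  linarith

end Pool.Agent.Y83.BG
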